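import Pool.Agent.H91.Sym.A1

/-! Module A2 of project SYM: basis independence, invariance under isometries, finiteness. -/

set_option autoImplicit false

open MeasureTheory Set Filter Topology
open scoped ContDiff Pointwise

namespace Pool.Agent.H84.Sym

open Pool.Agent.H84

section TT

variable {E : Type*} [NormedAddCommGroup E] [InnerProductSpace ℝ E]
variable {ι κ : Type*} [Fintype ι] [Fintype κ]

/-- The trace of a bilinear form does not depend on the orthonormal basis. -/
theorem trace_indep (b : OrthonormalBasis ι ℝ E) (b' : OrthonormalBasis κ ℝ E)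
    (B : E →L[ℝ] E →L[ℝ] ℝ) : ∑ i, B (b i) (b i) = ∑ j, B (b' j) (b' j) := by
  have h1 : ∀ i, B (b i) (b i) = ∑ j, (inner ℝ (b' j) (b i)) * B (b' j) (b i) := by
    intro i
    have h := b'.sum_repr' (b i)
    calc B (b i) (b i) = B (∑ j, (inner ℝ (b' j) (b i)) • b' j) (b i) := by rw [h]
      _ = _ := by
        rw [map_sum, ContinuousLinearMap.sum_apply]
        refine Finset.sum_congr rfl fun j _ => ?_
        rw [map_smul, ContinuousLinearMap.smul_apply, smul_eq_mul]
  have h2 : ∀ j, B (b' j) (b' j) = ∑ i, (inner ℝ (b' j) (b i)) * B (b' j) (b i) := by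
    intro j
    have h := b.sum_repr' (b' j)
    calc B (b' j) (b' j) = B (b' j) (∑ i, (inner ℝ (b i) (b' j)) • b i) := by rw [h]
      _ = _ := by
        rw [map_sum]
        refine Finset.sum_congr rfl fun i _ => ?_
        rw [map_smul, smul_eq_mul, real_inner_comm]
  rw [Finset.sum_congr rfl fun i _ => h1 i, Finset.sum_congr rfl fun j _ => h2 j,
    Finset.sum_comm]

end TT

variable {E : Type*} [NormedAddCommGroup E] [InnerProductSpace ℝ E]
    [FiniteDimensional ℝ E] [MeasurableSpace E] [BorelSpace E]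
variable {ι : Type*} [Fintype ι]

/-! ## A2  basis independence, invariance, finiteness -/

theorem norm_fderiv_sq (b : OrthonormalBasis ι ℝ E) (f : E → ℝ) (x : E) :
    ‖fderiv ℝ f x‖ ^ 2 = ∑ i, (D (b i) f x) ^ 2 := nsq_clm b _

theorem LO_indep {κ : Type*} [Fintype κ] (b : OrthonormalBasis ι ℝ E) (b' : OrthonormalBasis κ ℝ E)
    {U u : E → ℝ} (hu : ContDiff ℝ 2 u) (x : E) : LO b U u x = LO b' U u x := by
  unfold LO
  congr 1
  · have h := trace_indep b b' (fderiv ℝ (fderiv ℝ u) x)
    simpa only [D_D hu] using h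
  · have h := trace_indep b b' ((fderiv ℝ U x).smulRight (fderiv ℝ u x))
    simp only [ContinuousLinearMap.smulRight_apply, ContinuousLinearMap.smul_apply, smul_eq_mul]
      at h
    exact h

theorem D_comp_isom (g : E ≃ₗᵢ[ℝ] E) {u : E → ℝ} (hu : ContDiff ℝ 1 u) (e x : E) :
    D e (fun y => u (g y)) x = D (g e) u (g x) := by
  have h1 : HasFDerivAt u (fderiv ℝ u (g x)) (g x) :=
    (hu.differentiable (by norm_num) (g x)).hasFDerivAt
  have h2 : HasFDerivAt (fun y => g y) (g.toContinuousLinearEquiv : E →L[ℝ] E) x :=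
    g.toContinuousLinearEquiv.hasFDerivAt
  have h3 : HasFDerivAt (fun y => u (g y))
      ((fderiv ℝ u (g x)).comp (g.toContinuousLinearEquiv : E →L[ℝ] E)) x := h1.comp x h2
  simp only [D]
  rw [h3.fderiv]
  rfl

theorem LO_comp_isom (b : OrthonormalBasis ι ℝ E) (g : E ≃ₗᵢ[ℝ] E) {U u : E → ℝ}
    (hU : ContDiff ℝ 1 U) (hg : ∀ x, U (g x) = U x) (hu : ContDiff ℝ 2 u) (x : E) :
    LO b U (fun y => u (g y)) x = LO b U u (g x) := by
  rw [LO_indep b (b.map g) hu (g x)]
  have hgU : (fun y => U (g y)) = U := funext hg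
  have hu1 : ContDiff ℝ 1 u := hu.of_le (by norm_num)
  have e1 : ∀ e y, D e (fun y => u (g y)) y = D (g e) u (g y) := fun e y => D_comp_isom g hu1 e y
  have e2 : ∀ e y, D e U y = D (g e) U (g y) := by
    intro e y
    conv_lhs => rw [← hgU]
    exact D_comp_isom g hU e y
  have e3 : ∀ e y, D e (D e (fun y => u (g y))) y = D (g e) (D (g e) u) (g y) := by
    intro e y
    have h1 : D e (fun y => u (g y)) = fun y => D (g e) u (g y) := funext fun y => e1 e y
    rw [h1]
    exact D_comp_isom g (contDiff_D hu (by norm_num) (g e)) e y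
  unfold LO
  congr 1
  · refine Finset.sum_congr rfl fun i _ => ?_
    rw [e3, OrthonormalBasis.map_apply]
  · refine Finset.sum_congr rfl fun i _ => ?_
    rw [e1, e2, OrthonormalBasis.map_apply]

theorem integral_comp_isom {U : E → ℝ} (hU : Continuous U) (g : E ≃ₗᵢ[ℝ] E)
    (hg : ∀ x, U (g x) = U x) (F : E → ℝ) :
    ∫ x, F (g x) ∂(mu U) = ∫ x, F x ∂(mu U) := by
  rw [integral_mu hU, integral_mu hU]
  have h := g.measurePreserving.integral_comp g.toHomeomorph.measurableEmbedding
    (fun x => F x * Real.exp (-U x))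
  rw [← h]
  refine integral_congr_ae (Eventually.of_forall fun x => ?_)
  simp only [hg]

/-- Lower bound of a uniformly convex potential. -/
theorem pot_lower {E : Type*} [NormedAddCommGroup E] [InnerProductSpace ℝ E]
    {U : E → ℝ} {t C : ℝ} (hU : Pot U t C) (x : E) :
    U 0 + fderiv ℝ U 0 x + t / 2 * ‖x‖ ^ 2 ≤ U x := by
  have hd1 : ∀ s : ℝ, HasDerivAt (fun s : ℝ => U (s • x)) (fderiv ℝ U (s • x) x) s := by
    intro s
    have h1 : HasFDerivAt U (fderiv ℝ U (s • x)) (s • x) :=
      (hU.smooth.differentiable (by norm_num) (s • x)).hasFDerivAt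
    have h2 : HasDerivAt (fun s : ℝ => s • x) x s := by
      simpa using (hasDerivAt_id s).smul_const x
    exact h1.comp_hasDerivAt s h2
  have hd2 : ∀ s : ℝ, HasDerivAt (fun s : ℝ => fderiv ℝ U (s • x) x)
      (fderiv ℝ (fderiv ℝ U) (s • x) x x) s := by
    intro s
    have h1 : HasFDerivAt (fderiv ℝ U) (fderiv ℝ (fderiv ℝ U) (s • x)) (s • x) :=
      (((hU.smooth.fderiv_right (m := 1) (by norm_num)).differentiable (by norm_num))
        (s • x)).hasFDerivAt
    have h2 : HasDerivAt (fun s : ℝ => s • x) x s := by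
      simpa using (hasDerivAt_id s).smul_const x
    have h3 : HasDerivAt (fun s : ℝ => fderiv ℝ U (s • x)) (fderiv ℝ (fderiv ℝ U) (s • x) x) s :=
      h1.comp_hasDerivAt s h2
    have h4 := h3.clm_apply (hasDerivAt_const s x)
    simpa using h4
  -- the first derivative grows
  have m1 : Monotone (fun s : ℝ => fderiv ℝ U (s • x) x - t * ‖x‖ ^ 2 * s) := by
    apply monotone_of_deriv_nonneg
    · intro s
      exact ((hd2 s).sub ((hasDerivAt_id s).const_mul _)).differentiableAt
    · intro s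
      have := ((hd2 s).sub ((hasDerivAt_id s).const_mul (t * ‖x‖ ^ 2))).deriv
      have h5 : deriv (fun s : ℝ => fderiv ℝ U (s • x) x - t * ‖x‖ ^ 2 * s) s =
          fderiv ℝ (fderiv ℝ U) (s • x) x x - t * ‖x‖ ^ 2 * 1 := this
      rw [h5]
      have := hU.hess (s • x) x
      linarith
  have hd3 : ∀ s : ℝ, HasDerivAt (fun s : ℝ => U (s • x) - fderiv ℝ U 0 x * s -
      t / 2 * ‖x‖ ^ 2 * s ^ 2) (fderiv ℝ U (s • x) x - fderiv ℝ U 0 x * 1 -
      t / 2 * ‖x‖ ^ 2 * (2 * s)) s := by
    intro s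
    have h := ((hd1 s).sub ((hasDerivAt_id s).const_mul (fderiv ℝ U 0 x))).sub
      ((hasDerivAt_pow 2 s).const_mul (t / 2 * ‖x‖ ^ 2))
    have h2 : (((2 : ℕ) : ℝ) * s ^ (2 - 1)) = 2 * s := by norm_num
    rw [h2] at h
    exact h
  have m2 : MonotoneOn (fun s : ℝ => U (s • x) - fderiv ℝ U 0 x * s - t / 2 * ‖x‖ ^ 2 * s ^ 2)
      (Icc 0 1) := by
    apply monotoneOn_of_deriv_nonneg (convex_Icc 0 1)
    · exact fun s _ => (hd3 s).continuousAt.continuousWithinAt
    · exact fun s _ => (hd3 s).differentiableAt.differentiableWithinAt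
    · intro s hs
      rw [interior_Icc] at hs
      rw [(hd3 s).deriv]
      have h := m1 hs.1.le
      simp only [zero_smul, mul_zero, sub_zero] at h
      linarith
  have h := m2 (left_mem_Icc.2 zero_le_one) (right_mem_Icc.2 zero_le_one) zero_le_one
  simp only [zero_smul, one_smul] at h
  linarith

theorem integrable_gauss {b : ℝ} (hb : 0 < b) :
    Integrable (fun x : E => Real.exp (-b * ‖x‖ ^ 2)) := by
  have h := GaussianFourier.integrable_cexp_neg_mul_sq_norm_add (V := E) (b := (b : ℂ))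
    (by simpa using hb) 0 0
  have h2 := h.re
  refine h2.congr (Eventually.of_forall fun x => ?_)
  simp only [zero_mul, add_zero]
  have : (-(b : ℂ) * (‖x‖ : ℂ) ^ 2) = ((-b * ‖x‖ ^ 2 : ℝ) : ℂ) := by push_cast; ring
  rw [this, ← Complex.ofReal_exp]
  exact Complex.ofReal_re _

/-- Functions of at most exponential growth are integrable. -/
theorem integrable_exp_growth {U : E → ℝ} {t C : ℝ} (hU : Pot U t C) {F : E → ℝ}
    (hF : Continuous F) {A B : ℝ} (hFb : ∀ x, |F x| ≤ A * Real.exp (B * ‖x‖)) :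
    Integrable F (mu U) := by
  have hUc : Continuous U := hU.smooth.continuous
  have ht := hU.pos
  have hA : 0 ≤ A := by
    have := (abs_nonneg _).trans (hFb 0)
    simp only [norm_zero, mul_zero, Real.exp_zero, mul_one] at this
    exact this
  unfold mu
  rw [integrable_withDensity_iff_integrable_smul']
  · have h : (fun x => (ENNReal.ofReal (Real.exp (-U x))).toReal • F x) =
        fun x => Real.exp (-U x) * F x := by
      funext x
      rw [ENNReal.toReal_ofReal (Real.exp_pos _).le, smul_eq_mul]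
    rw [h]
    set G := ‖fderiv ℝ U 0‖ with hG
    set M := A * Real.exp (-U 0 + (|B| + G) ^ 2 / t) with hM
    have hi : Integrable (fun x : E => M * Real.exp (-(t / 4) * ‖x‖ ^ 2)) :=
      (integrable_gauss (by positivity)).const_mul M
    refine hi.mono' ((Real.continuous_exp.comp hUc.neg).mul hF).aestronglyMeasurable
      (Eventually.of_forall fun x => ?_)
    rw [Real.norm_eq_abs, abs_mul, abs_of_pos (Real.exp_pos _)]
    have hl := pot_lower hU x
    have hl2 : -(G * ‖x‖) ≤ fderiv ℝ U 0 x := by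
      have := (fderiv ℝ U 0).le_opNorm x
      have h2 := neg_abs_le (fderiv ℝ U 0 x)
      rw [Real.norm_eq_abs] at this
      linarith
    have hBx : B * ‖x‖ ≤ |B| * ‖x‖ := mul_le_mul_of_nonneg_right (le_abs_self _) (norm_nonneg _)
    have hsq : (|B| + G) * ‖x‖ ≤ t / 4 * ‖x‖ ^ 2 + (|B| + G) ^ 2 / t := by
      have h1 : 0 ≤ (t / 2 * ‖x‖ - (|B| + G)) ^ 2 / t := by positivity
      have h2 : (t / 2 * ‖x‖ - (|B| + G)) ^ 2 / t =
          t / 4 * ‖x‖ ^ 2 + (|B| + G) ^ 2 / t - (|B| + G) * ‖x‖ := by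
        field_simp
        ring
      linarith
    calc Real.exp (-U x) * |F x| ≤ Real.exp (-U x) * (A * Real.exp (B * ‖x‖)) :=
          mul_le_mul_of_nonneg_left (hFb x) (Real.exp_pos _).le
      _ = A * Real.exp (-U x + B * ‖x‖) := by rw [Real.exp_add]; ring
      _ ≤ A * Real.exp ((-U 0 + (|B| + G) ^ 2 / t) + (-(t / 4) * ‖x‖ ^ 2)) := by
          apply mul_le_mul_of_nonneg_left _ hA
          apply Real.exp_le_exp.2
          nlinarith
      _ = M * Real.exp (-(t / 4) * ‖x‖ ^ 2) := by rw [Real.exp_add, hM]; ring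
  · exact (ENNReal.measurable_ofReal.comp (Real.measurable_exp.comp hUc.measurable.neg))
  · exact Eventually.of_forall fun x => ENNReal.ofReal_lt_top

theorem isFinite_mu {U : E → ℝ} {t C : ℝ} (hU : Pot U t C) : IsFiniteMeasure (mu U) := by
  have h : Integrable (fun _ : E => (1 : ℝ)) (mu U) :=
    integrable_exp_growth hU continuous_const (A := 1) (B := 0) (by intro x; simp)
  rw [integrable_const_iff] at h
  rcases h with h | h
  · exact absurd h one_ne_zero
  · exact h

theorem mu_univ_pos {U : E → ℝ} (hU : Continuous U) (hfin : IsFiniteMeasure (mu U)) :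
    0 < (mu U).real univ := by
  have h : (mu U) univ ≠ 0 := by
    unfold mu
    rw [withDensity_apply _ MeasurableSet.univ, Measure.restrict_univ]
    intro h0
    have hmeas : Measurable (fun a : E => ENNReal.ofReal (Real.exp (-U a))) :=
      ENNReal.measurable_ofReal.comp (Real.measurable_exp.comp hU.measurable.neg)
    rw [lintegral_eq_zero_iff hmeas] at h0
    have h1 : ∀ᵐ x ∂(volume : Measure E), False := by
      filter_upwards [h0] with x hx
      have h2 : ENNReal.ofReal (Real.exp (-U x)) = 0 := hx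
      rw [ENNReal.ofReal_eq_zero] at h2
      exact absurd (Real.exp_pos _) (not_lt.2 h2)
    rw [Filter.eventually_false_iff_eq_bot, ae_eq_bot] at h1
    exact (NeZero.ne (volume : Measure E)) h1
  exact ENNReal.toReal_pos h (measure_ne_top _ _)

theorem pot_isom {F : Type*} [NormedAddCommGroup F] [InnerProductSpace ℝ F]
    (φ : F ≃ₗᵢ[ℝ] E) {U : E → ℝ} {t C : ℝ} (hU : Pot U t C) :
    Pot (fun x => U (φ x)) t C := by
  have e1 : ∀ x, HasFDerivAt (fun x => U (φ x))
      ((fderiv ℝ U (φ x)).comp (φ.toContinuousLinearEquiv : F →L[ℝ] E)) x := by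
    intro x
    have h1 : HasFDerivAt U (fderiv ℝ U (φ x)) (φ x) :=
      (hU.smooth.differentiable (by norm_num) (φ x)).hasFDerivAt
    have h2 : HasFDerivAt (fun y => φ y) (φ.toContinuousLinearEquiv : F →L[ℝ] E) x :=
      φ.toContinuousLinearEquiv.hasFDerivAt
    exact h1.comp x h2
  refine ⟨hU.smooth.comp φ.contDiff, hU.pos, ?_, ?_⟩
  · intro x v
    have e2 : fderiv ℝ (fun x => U (φ x)) = fun x =>
        (fderiv ℝ U (φ x)).comp (φ.toContinuousLinearEquiv : F →L[ℝ] E) :=
      funext fun x => (e1 x).fderiv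
    have hs : ContDiff ℝ 2 (fun x => U (φ x)) := hU.smooth.comp φ.contDiff
    have h3 : HasFDerivAt (fun y => fderiv ℝ (fun x => U (φ x)) y v)
        ((ContinuousLinearMap.apply ℝ ℝ v).comp (fderiv ℝ (fderiv ℝ (fun x => U (φ x))) x)) x := by
      have h1 : DifferentiableAt ℝ (fderiv ℝ (fun x => U (φ x))) x :=
        ((hs.fderiv_right (m := 1) (by norm_num)).differentiable (by norm_num)) x
      exact (ContinuousLinearMap.apply ℝ ℝ v).hasFDerivAt.comp x h1.hasFDerivAt
    have h4 : (fun y => fderiv ℝ (fun x => U (φ x)) y v) = fun y => fderiv ℝ U (φ y) (φ v) := by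
      funext y
      rw [e2]
      rfl
    have h5 : HasFDerivAt (fun y => fderiv ℝ U (φ y) (φ v))
        (((ContinuousLinearMap.apply ℝ ℝ (φ v)).comp (fderiv ℝ (fderiv ℝ U) (φ x))).comp
          (φ.toContinuousLinearEquiv : F →L[ℝ] E)) x := by
      have h1 : HasFDerivAt (fderiv ℝ U) (fderiv ℝ (fderiv ℝ U) (φ x)) (φ x) :=
        (((hU.smooth.fderiv_right (m := 1) (by norm_num)).differentiable (by norm_num))
          (φ x)).hasFDerivAt
      have h2 : HasFDerivAt (fun y => φ y) (φ.toContinuousLinearEquiv : F →L[ℝ] E) x :=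
        φ.toContinuousLinearEquiv.hasFDerivAt
      have h6 : HasFDerivAt (fun y => fderiv ℝ U y (φ v))
          ((ContinuousLinearMap.apply ℝ ℝ (φ v)).comp (fderiv ℝ (fderiv ℝ U) (φ x))) (φ x) :=
        (ContinuousLinearMap.apply ℝ ℝ (φ v)).hasFDerivAt.comp (φ x) h1
      exact h6.comp x h2
    rw [h4] at h3
    have h7 := h3.unique h5
    have h8 : fderiv ℝ (fderiv ℝ (fun x => U (φ x))) x v v =
        fderiv ℝ (fderiv ℝ U) (φ x) (φ v) (φ v) := by
      have := congrArg (fun L : F →L[ℝ] ℝ => L v) h7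
      exact this
    rw [h8, ← φ.norm_map v]
    exact hU.hess _ _
  · intro x
    rw [(e1 x).fderiv]
    have h1 := hU.grad (φ x)
    rw [φ.norm_map] at h1
    refine le_trans ?_ h1
    apply ContinuousLinearMap.opNorm_le_bound _ (norm_nonneg _)
    intro v
    have h2 := (fderiv ℝ U (φ x)).le_opNorm (φ v)
    rw [φ.norm_map] at h2
    exact h2

end Pool.Agent.H84.Sym
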