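import Pool.Agent.H91.Sym.A2

/-! Module B2 of project SYM: logarithmic cut-off functions. -/

set_option autoImplicit false

open MeasureTheory Set Filter Topology
open scoped ContDiff Pointwise

namespace Pool.Agent.H84.Sym

open Pool.Agent.H84

namespace CutAux

/-- One variable profile. -/
noncomputable def th (s : ℝ) : ℝ := Real.smoothTransition (2 - s)

theorem th_contDiff : ContDiff ℝ ∞ th :=
  Real.smoothTransition.contDiff.comp (contDiff_const.sub contDiff_id)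

theorem th_one {s : ℝ} (hs : s ≤ 1) : th s = 1 :=
  Real.smoothTransition.one_of_one_le (by linarith)

theorem th_zero {s : ℝ} (hs : 2 ≤ s) : th s = 0 :=
  Real.smoothTransition.zero_of_nonpos (by linarith)

theorem dth_contDiff : ContDiff ℝ ∞ (deriv th) :=
  (contDiff_infty_iff_deriv.1 th_contDiff).2

theorem dth_supp : HasCompactSupport (deriv th) := by
  apply HasCompactSupport.intro (isCompact_Icc (a := (1 : ℝ)) (b := 2))
  intro s hs
  rw [mem_Icc, not_and_or, not_le, not_le] at hs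
  rcases hs with h | h
  · have : th =ᶠ[𝓝 s] fun _ => (1 : ℝ) := by
      filter_upwards [Iio_mem_nhds h] with y hy
      exact th_one (le_of_lt hy)
    rw [this.deriv_eq]
    simp
  · have : th =ᶠ[𝓝 s] fun _ => (0 : ℝ) := by
      filter_upwards [Ioi_mem_nhds h] with y hy
      exact th_zero (le_of_lt hy)
    rw [this.deriv_eq]
    simp

theorem exists_bounds : ∃ M1 M2 : ℝ, 0 ≤ M1 ∧ 0 ≤ M2 ∧ (∀ s, |deriv th s| ≤ M1) ∧
    (∀ s, |deriv (deriv th) s| ≤ M2) := by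
  obtain ⟨M1, h1⟩ := dth_contDiff.continuous.bounded_above_of_compact_support dth_supp
  have hc : Continuous (deriv (deriv th)) :=
    (contDiff_infty_iff_deriv.1 dth_contDiff).2.continuous
  obtain ⟨M2, h2⟩ := hc.bounded_above_of_compact_support dth_supp.deriv
  exact ⟨M1, M2, (norm_nonneg _).trans (h1 0), (norm_nonneg _).trans (h2 0), h1, h2⟩

variable {E : Type*} [NormedAddCommGroup E] [InnerProductSpace ℝ E]

/-- The exponent. -/
noncomputable def p (x : E) : ℝ := Real.log (1 + ‖x‖ ^ 2)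

theorem q_pos (x : E) : 0 < 1 + ‖x‖ ^ 2 := by positivity

theorem p_contDiff : ContDiff ℝ ∞ (p : E → ℝ) := by
  unfold p
  exact (contDiff_const.add (contDiff_norm_sq ℝ)).log fun x => (q_pos x).ne'

theorem q_hasFDerivAt (x : E) :
    HasFDerivAt (fun y : E => 1 + ‖y‖ ^ 2) (2 • (innerSL ℝ x)) x := by
  have := (hasStrictFDerivAt_norm_sq x).hasFDerivAt.const_add 1
  exact this

theorem D_p (e x : E) : D e p x = (1 + ‖x‖ ^ 2)⁻¹ * (2 * inner ℝ x e) := by
  have h := (q_hasFDerivAt x).log (q_pos x).ne'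
  have h2 : fderiv ℝ (p : E → ℝ) x = (1 + ‖x‖ ^ 2)⁻¹ • (2 • (innerSL ℝ x)) := h.fderiv
  simp only [D]
  rw [h2]
  simp

theorem norm_fderiv_p (x : E) : ‖fderiv ℝ (p : E → ℝ) x‖ ≤ (1 + ‖x‖ ^ 2)⁻¹ * (2 * ‖x‖) := by
  apply ContinuousLinearMap.opNorm_le_bound
  · positivity
  · intro e
    have h : fderiv ℝ (p : E → ℝ) x e = (1 + ‖x‖ ^ 2)⁻¹ * (2 * inner ℝ x e) := D_p e x
    rw [h, Real.norm_eq_abs, abs_mul, abs_mul, abs_of_pos (inv_pos.2 (q_pos x)), abs_two]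
    have := abs_real_inner_le_norm x e
    have h3 := (inv_pos.2 (q_pos x))
    calc (1 + ‖x‖ ^ 2)⁻¹ * (2 * |inner ℝ x e|) ≤ (1 + ‖x‖ ^ 2)⁻¹ * (2 * (‖x‖ * ‖e‖)) := by gcongr
      _ = _ := by ring

theorem D_D_p (e x : E) : D e (D e p) x =
    (1 + ‖x‖ ^ 2)⁻¹ * (2 * ‖e‖ ^ 2) - ((1 + ‖x‖ ^ 2)⁻¹ * (2 * inner ℝ x e)) ^ 2 := by
  have h1 : D e (p : E → ℝ) = fun x => (1 + ‖x‖ ^ 2)⁻¹ * (2 * inner ℝ x e) := funext (D_p e)
  rw [h1]
  have h2 : HasFDerivAt (fun y : E => (1 + ‖y‖ ^ 2)⁻¹)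
      (-((1 + ‖x‖ ^ 2) ^ 2)⁻¹ • (2 • (innerSL ℝ x))) x :=
    (hasDerivAt_inv (q_pos x).ne').comp_hasFDerivAt x (q_hasFDerivAt x)
  have h3 : HasFDerivAt (fun y : E => 2 * inner ℝ y e) ((2 : ℝ) • (innerSL ℝ e)) x := by
    have : HasFDerivAt (fun y : E => (innerSL ℝ e) y) (innerSL ℝ e) x :=
      (innerSL ℝ e).hasFDerivAt
    have h4 := this.const_mul (2 : ℝ)
    refine h4.congr_of_eventuallyEq (Eventually.of_forall fun y => ?_)
    simp only [innerSL_apply_apply]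
    rw [real_inner_comm]
  rw [D_mul h2.differentiableAt h3.differentiableAt]
  simp only [D]
  rw [h2.fderiv, h3.fderiv]
  simp only [ContinuousLinearMap.smul_apply, innerSL_apply_apply, smul_eq_mul, nsmul_eq_mul,
    real_inner_self_eq_norm_sq]
  have hq := (q_pos x).ne'
  field_simp
  push_cast
  ring

theorem D_chi (c : ℝ) (e x : E) :
    D e (fun y => th (c * p y)) x = deriv th (c * p x) * (c * D e p x) := by
  have h1 : HasDerivAt th (deriv th (c * p x)) (c * p x) :=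
    ((th_contDiff.differentiable (by norm_num)) _).hasDerivAt
  have h2 : HasFDerivAt (fun y : E => c * p y) (c • fderiv ℝ p x) x :=
    ((p_contDiff.differentiable (by norm_num) x).hasFDerivAt).const_mul c
  have h3' : HasFDerivAt (th ∘ (fun y : E => c * p y)) (deriv th (c * p x) • (c • fderiv ℝ p x)) x :=
    h1.comp_hasFDerivAt x h2
  have h3 : HasFDerivAt (fun y : E => th (c * p y)) (deriv th (c * p x) • (c • fderiv ℝ p x)) x :=
    h3'
  simp only [D]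
  rw [h3.fderiv]
  simp

theorem norm_fderiv_chi {c : ℝ} (hc : 0 ≤ c) {M1 : ℝ} (hM1 : 0 ≤ M1) (h1 : ∀ s, |deriv th s| ≤ M1)
    (x : E) : (1 + ‖x‖) * ‖fderiv ℝ (fun y : E => th (c * p y)) x‖ ≤ 3 * M1 * c := by
  have hn : ‖fderiv ℝ (fun y : E => th (c * p y)) x‖ ≤
      M1 * (c * ((1 + ‖x‖ ^ 2)⁻¹ * (2 * ‖x‖))) := by
    apply ContinuousLinearMap.opNorm_le_bound
    · positivity
    · intro e
      have h : fderiv ℝ (fun y : E => th (c * p y)) x e = deriv th (c * p x) * (c * D e p x) :=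
        D_chi c e x
      have h4 : ‖fderiv ℝ (p : E → ℝ) x e‖ ≤ (1 + ‖x‖ ^ 2)⁻¹ * (2 * ‖x‖) * ‖e‖ :=
        ((fderiv ℝ (p : E → ℝ) x).le_opNorm e).trans
          (mul_le_mul_of_nonneg_right (norm_fderiv_p x) (norm_nonneg _))
      rw [h, Real.norm_eq_abs, abs_mul, abs_mul, abs_of_nonneg hc]
      calc |deriv th (c * p x)| * (c * |D e p x|) ≤
            M1 * (c * ((1 + ‖x‖ ^ 2)⁻¹ * (2 * ‖x‖) * ‖e‖)) := by
            gcongr
            · exact h1 _
            · exact h4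
        _ = _ := by ring
  have hr := norm_nonneg x
  have hkey : (1 + ‖x‖) * ((1 + ‖x‖ ^ 2)⁻¹ * (2 * ‖x‖)) ≤ 3 := by
    rw [inv_mul_eq_div, mul_div_assoc', div_le_iff₀ (q_pos x)]
    nlinarith [sq_nonneg (1 - ‖x‖)]
  calc (1 + ‖x‖) * ‖fderiv ℝ (fun y : E => th (c * p y)) x‖
      ≤ (1 + ‖x‖) * (M1 * (c * ((1 + ‖x‖ ^ 2)⁻¹ * (2 * ‖x‖)))) := by gcongr
    _ = M1 * c * ((1 + ‖x‖) * ((1 + ‖x‖ ^ 2)⁻¹ * (2 * ‖x‖))) := by ring
    _ ≤ M1 * c * 3 := by gcongr
    _ = 3 * M1 * c := by ring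

theorem D_D_chi {c : ℝ} (hc : 0 ≤ c) (hc1 : c ≤ 1) {M1 M2 : ℝ} (hM1 : 0 ≤ M1) (hM2 : 0 ≤ M2)
    (h1 : ∀ s, |deriv th s| ≤ M1) (h2 : ∀ s, |deriv (deriv th) s| ≤ M2) {e : E} (he : ‖e‖ = 1)
    (x : E) : |D e (D e (fun y => th (c * p y))) x| ≤ (4 * M2 + 6 * M1) * c := by
  have e1 : D e (fun y : E => th (c * p y)) = fun x => deriv th (c * p x) * (c * D e p x) :=
    funext (D_chi c e)
  have d1 : HasFDerivAt (fun y : E => deriv th (c * p y))
      (deriv (deriv th) (c * p x) • (c • fderiv ℝ p x)) x := by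
    have h1 : HasDerivAt (deriv th) (deriv (deriv th) (c * p x)) (c * p x) :=
      ((dth_contDiff.differentiable (by norm_num)) _).hasDerivAt
    have h2 : HasFDerivAt (fun y : E => c * p y) (c • fderiv ℝ p x) x :=
      ((p_contDiff.differentiable (by norm_num) x).hasFDerivAt).const_mul c
    exact h1.comp_hasFDerivAt x h2
  have d2 : DifferentiableAt ℝ (D e (p : E → ℝ)) x :=
    (contDiff_D (m := 1) (n := 2) (contDiff_infty.1 p_contDiff 2) (by norm_num)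
      e).differentiable (by norm_num) x
  have d3 : HasFDerivAt (fun y : E => c * D e p y) (c • fderiv ℝ (D e p) x) x :=
    d2.hasFDerivAt.const_mul c
  have e2 : D e (D e (fun y => th (c * p y))) x =
      c ^ 2 * (deriv (deriv th) (c * p x) * (D e p x) ^ 2) +
        c * (deriv th (c * p x) * D e (D e p) x) := by
    rw [e1, D_mul d1.differentiableAt d3.differentiableAt]
    simp only [D]
    rw [d1.fderiv]
    have d3' : HasFDerivAt (fun y : E => c * fderiv ℝ p y e)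
        (c • fderiv ℝ (D e (p : E → ℝ)) x) x := d3
    rw [d3'.fderiv]
    simp only [ContinuousLinearMap.smul_apply, smul_eq_mul]
    ring
  have hq := q_pos x
  have hq1 : (1 + ‖x‖ ^ 2)⁻¹ ≤ 1 := inv_le_one_of_one_le₀ (by nlinarith [sq_nonneg ‖x‖])
  have hin : |inner ℝ x e| ≤ ‖x‖ := by
    have := abs_real_inner_le_norm x e
    rwa [he, mul_one] at this
  have hDp : (D e p x) ^ 2 ≤ 4 := by
    rw [D_p, ← sq_abs, abs_mul, abs_mul, abs_of_pos (inv_pos.2 hq), abs_two]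
    have h3 : (1 + ‖x‖ ^ 2)⁻¹ * (2 * |inner ℝ x e|) ≤ 2 := by
      rw [inv_mul_eq_div, div_le_iff₀ hq]
      nlinarith [sq_nonneg (1 - ‖x‖), norm_nonneg x]
    have h4 : 0 ≤ (1 + ‖x‖ ^ 2)⁻¹ * (2 * |inner ℝ x e|) := by positivity
    nlinarith
  have hDDp : |D e (D e p) x| ≤ 6 := by
    have h5 : D e (D e p) x = (1 + ‖x‖ ^ 2)⁻¹ * (2 * ‖e‖ ^ 2) - (D e p x) ^ 2 := by
      rw [D_D_p, D_p]
    rw [h5, he]
    have h6 : 0 ≤ (1 + ‖x‖ ^ 2)⁻¹ := (inv_pos.2 hq).le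
    have h7 := sq_nonneg (D e p x)
    rw [abs_le]
    constructor
    · nlinarith
    · nlinarith
  rw [e2]
  have t1 : |c ^ 2 * (deriv (deriv th) (c * p x) * (D e p x) ^ 2)| ≤ c * (M2 * 4) := by
    rw [abs_mul, abs_mul, abs_of_nonneg (sq_nonneg c), abs_of_nonneg (sq_nonneg (D e p x))]
    have hcc : c ^ 2 ≤ c := by nlinarith
    gcongr
    exact h2 _
  have t2 : |c * (deriv th (c * p x) * D e (D e p) x)| ≤ c * (M1 * 6) := by
    rw [abs_mul, abs_mul, abs_of_nonneg hc]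
    gcongr
    exact h1 _
  refine (abs_add_le _ _).trans ?_
  linarith

end CutAux

variable {E : Type*} [NormedAddCommGroup E] [InnerProductSpace ℝ E]
    [FiniteDimensional ℝ E] [MeasurableSpace E] [BorelSpace E]
variable {ι : Type*} [Fintype ι]

/-! ## B2  logarithmic cut-off functions -/

open CutAux in
theorem exists_cutoff (b : OrthonormalBasis ι ℝ E) : ∃ (A : ℝ) (χ : ℕ → E → ℝ), ∀ k : ℕ,
    Tst (χ k) ∧ (∀ x, 0 ≤ χ k x ∧ χ k x ≤ 1) ∧
    (∀ x : E, Real.log (1 + ‖x‖ ^ 2) ≤ k + 1 → χ k x = 1) ∧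
    (∀ x : E, (1 + ‖x‖) * ‖fderiv ℝ (χ k) x‖ ≤ A / (k + 1)) ∧
    (∀ x : E, |∑ i, D (b i) (D (b i) (χ k)) x| ≤ A / (k + 1)) := by
  classical
  obtain ⟨M1, M2, hM1, hM2, h1, h2⟩ := exists_bounds
  set N : ℝ := (Fintype.card ι : ℝ) with hN
  have hN0 : 0 ≤ N := Nat.cast_nonneg _
  refine ⟨3 * M1 + N * (4 * M2 + 6 * M1), fun k x => th (1 / ((k : ℝ) + 1) * p x), fun k => ?_⟩
  have hk : (0 : ℝ) < (k : ℝ) + 1 := by positivity
  have hk1 : (1 : ℝ) ≤ (k : ℝ) + 1 := by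
    have : (0 : ℝ) ≤ k := Nat.cast_nonneg k
    linarith
  set c : ℝ := 1 / ((k : ℝ) + 1) with hcdef
  have hc : 0 ≤ c := by positivity
  have hc1 : c ≤ 1 := by rw [hcdef, div_le_one hk]; exact hk1
  have hdiv : ∀ y : ℝ, y / ((k : ℝ) + 1) = y * c := by intro y; rw [hcdef]; ring
  refine ⟨⟨?_, ?_⟩, ?_, ?_, ?_, ?_⟩
  · exact th_contDiff.comp (contDiff_const.mul p_contDiff)
  · apply HasCompactSupport.intro (isCompact_closedBall (0 : E) (Real.exp ((k : ℝ) + 1)))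
    intro x hx
    rw [mem_closedBall_zero_iff, not_le] at hx
    apply th_zero
    have h3 : Real.exp (2 * ((k : ℝ) + 1)) ≤ 1 + ‖x‖ ^ 2 := by
      have h4 : Real.exp (2 * ((k : ℝ) + 1)) = Real.exp ((k : ℝ) + 1) ^ 2 := by
        rw [two_mul, Real.exp_add]; ring
      rw [h4]
      have h5 := Real.exp_pos ((k : ℝ) + 1)
      nlinarith
    have h4 : 2 * ((k : ℝ) + 1) ≤ p x := by
      unfold p
      rw [Real.le_log_iff_exp_le (q_pos x)]
      exact h3
    rw [one_div, inv_mul_eq_div, le_div_iff₀ hk]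
    exact h4
  · intro x
    exact ⟨Real.smoothTransition.nonneg _, Real.smoothTransition.le_one _⟩
  · intro x hx
    apply th_one
    rw [one_div, inv_mul_eq_div, div_le_one hk]
    exact hx
  · intro x
    rw [hdiv]
    refine (norm_fderiv_chi hc hM1 h1 x).trans ?_
    apply mul_le_mul_of_nonneg_right _ hc
    have : 0 ≤ N * (4 * M2 + 6 * M1) := by positivity
    linarith
  · intro x
    rw [hdiv]
    refine (Finset.abs_sum_le_sum_abs _ _).trans ?_
    have h3 : ∀ i ∈ (Finset.univ : Finset ι),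
        |D (b i) (D (b i) (fun x => th (c * p x))) x| ≤ (4 * M2 + 6 * M1) * c := fun i _ =>
      D_D_chi hc hc1 hM1 hM2 h1 h2 (b.norm_eq_one i) x
    refine (Finset.sum_le_card_nsmul _ _ _ h3).trans ?_
    rw [nsmul_eq_mul, Finset.card_univ]
    have : 0 ≤ 3 * M1 * c := by positivity
    have h4 : (Fintype.card ι : ℝ) * ((4 * M2 + 6 * M1) * c) = N * (4 * M2 + 6 * M1) * c := by
      rw [hN]; ring
    rw [h4, add_mul]
    linarith

end Pool.Agent.H84.Sym
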