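import Pool.Agent.H84.Sym.Defs

/-! Module A1 of project SYM: integration by parts, Green's formula, Bochner's inequality. -/

set_option autoImplicit false

open MeasureTheory Set Filter Topology
open scoped ContDiff Pointwise

namespace Pool.Agent.H84.Sym

open Pool.Agent.H84

section DD

variable {E : Type*} [NormedAddCommGroup E] [InnerProductSpace ℝ E]

theorem contDiff_D {f : E → ℝ} {m n : WithTop ℕ∞} (hf : ContDiff ℝ n f) (h : m + 1 ≤ n) (e : E) :
    ContDiff ℝ m (D e f) :=
  (hf.fderiv_right h).clm_apply contDiff_const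

theorem D_mul {f g : E → ℝ} {x : E} (hf : DifferentiableAt ℝ f x) (hg : DifferentiableAt ℝ g x)
    (e : E) : D e (fun y => f y * g y) x = D e f x * g x + f x * D e g x := by
  simp only [D]
  have h : (fun y => f y * g y) = f * g := rfl
  rw [h, fderiv_mul hf hg]
  simp only [ContinuousLinearMap.add_apply, ContinuousLinearMap.smul_apply, smul_eq_mul]
  ring

theorem D_sub {f g : E → ℝ} {x : E} (hf : DifferentiableAt ℝ f x) (hg : DifferentiableAt ℝ g x)
    (e : E) : D e (fun y => f y - g y) x = D e f x - D e g x := by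
  simp only [D]
  have h : (fun y => f y - g y) = f - g := rfl
  rw [h, fderiv_sub hf hg]
  rfl

theorem D_sum {κ : Type*} (s : Finset κ) {f : κ → E → ℝ} {x : E}
    (hf : ∀ i ∈ s, DifferentiableAt ℝ (f i) x) (e : E) :
    D e (fun y => ∑ i ∈ s, f i y) x = ∑ i ∈ s, D e (f i) x := by
  simp only [D]
  rw [fderiv_fun_sum hf]
  simp

theorem D_exp_neg {U : E → ℝ} {x : E} (hU : DifferentiableAt ℝ U x) (e : E) :
    D e (fun y => Real.exp (-U y)) x = -(D e U x) * Real.exp (-U x) := by
  simp only [D]
  have h : HasFDerivAt (fun y => Real.exp (-U y)) (Real.exp (-U x) • (-(fderiv ℝ U x))) x :=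
    hU.hasFDerivAt.neg.exp
  rw [h.fderiv]
  simp only [ContinuousLinearMap.smul_apply, ContinuousLinearMap.neg_apply, smul_eq_mul]
  ring

theorem hcs_D {f : E → ℝ} (hf : HasCompactSupport f) (e : E) : HasCompactSupport (D e f) :=
  hf.fderiv_apply (𝕜 := ℝ) e

theorem D_D {f : E → ℝ} (hf : ContDiff ℝ 2 f) (e e' x : E) :
    D e (D e' f) x = fderiv ℝ (fderiv ℝ f) x e e' := by
  have h1 : DifferentiableAt ℝ (fderiv ℝ f) x :=
    ((hf.fderiv_right (m := 1) (by norm_num)).differentiable (by norm_num)) x
  have h2 : HasFDerivAt (fun y => fderiv ℝ f y e')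
      ((ContinuousLinearMap.apply ℝ ℝ e').comp (fderiv ℝ (fderiv ℝ f) x)) x := by
    have := (ContinuousLinearMap.apply ℝ ℝ e').hasFDerivAt.comp x h1.hasFDerivAt
    exact this
  have h3 : D e' f = fun y => fderiv ℝ f y e' := rfl
  rw [h3]
  simp only [D]
  rw [h2.fderiv]
  rfl

theorem D_comm {f : E → ℝ} (hf : ContDiff ℝ 2 f) (e e' x : E) :
    D e (D e' f) x = D e' (D e f) x := by
  rw [D_D hf, D_D hf]
  exact (hf.contDiffAt.isSymmSndFDerivAt (by simp)).eq e e'

variable {ι : Type*} [Fintype ι]

theorem nsq_clm (b : OrthonormalBasis ι ℝ E) (ℓ : E →L[ℝ] ℝ) : ‖ℓ‖ ^ 2 = ∑ i, (ℓ (b i)) ^ 2 := by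
  classical
  have : FiniteDimensional ℝ E := b.toBasis.finiteDimensional_of_finite
  have : CompleteSpace E := FiniteDimensional.complete ℝ E
  set v := (InnerProductSpace.toDual ℝ E).symm ℓ with hv
  have h1 : ‖v‖ = ‖ℓ‖ := by rw [hv]; exact LinearIsometryEquiv.norm_map _ _
  have h2 : ∀ w, ℓ w = inner ℝ v w := by
    intro w
    rw [hv, InnerProductSpace.toDual_symm_apply]
  rw [← h1, ← b.sum_sq_norm_inner_left v]
  refine Finset.sum_congr rfl fun i _ => ?_
  rw [h2, Real.norm_eq_abs, sq_abs]

theorem expand_b (b : OrthonormalBasis ι ℝ E) (ℓ : E →L[ℝ] ℝ) (B : E →L[ℝ] E →L[ℝ] ℝ) {q : ℝ}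
    (hq : ∀ v : E, q * ‖v‖ ^ 2 ≤ B v v) :
    q * ‖ℓ‖ ^ 2 ≤ ∑ i, ∑ j, B (b i) (b j) * ℓ (b i) * ℓ (b j) := by
  classical
  set v : E := ∑ i, ℓ (b i) • b i with hv
  have h1 : ‖v‖ ^ 2 = ‖ℓ‖ ^ 2 := by
    rw [nsq_clm b ℓ, ← b.sum_sq_norm_inner_right v]
    refine Finset.sum_congr rfl fun i _ => ?_
    have : inner ℝ (b i) v = ℓ (b i) := by
      rw [hv, inner_sum]
      simp only [inner_smul_right]
      rw [Finset.sum_eq_single i]
      · rw [real_inner_self_eq_norm_sq, b.norm_eq_one i]; ring
      · intro j _ hj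
        rw [b.inner_eq_zero (Ne.symm hj), mul_zero]
      · intro h; exact absurd (Finset.mem_univ i) h
    rw [this, Real.norm_eq_abs, sq_abs]
  have h2 : B v v = ∑ i, ∑ j, B (b i) (b j) * ℓ (b i) * ℓ (b j) := by
    rw [hv]
    simp only [map_sum, map_smul, ContinuousLinearMap.sum_apply, ContinuousLinearMap.smul_apply,
      smul_eq_mul, Finset.mul_sum]
    rw [Finset.sum_comm]
    refine Finset.sum_congr rfl fun i _ => Finset.sum_congr rfl fun j _ => ?_
    ring
  rw [← h1, ← h2]
  exact hq v

end DD

variable {E : Type*} [NormedAddCommGroup E] [InnerProductSpace ℝ E]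
    [FiniteDimensional ℝ E] [MeasurableSpace E] [BorelSpace E]
variable {ι : Type*} [Fintype ι]

/-! ## A1  integration by parts -/

theorem ibp {F : E → ℝ} (hF : ContDiff ℝ 1 F) (hc : HasCompactSupport F) (e : E) :
    ∫ x, D e F x = 0 := by
  have hd : Differentiable ℝ F := hF.differentiable (by norm_num)
  have h1 : Integrable (D e F) :=
    (contDiff_D (m := 0) hF (by norm_num) e).continuous.integrable_of_hasCompactSupport (hcs_D hc e)
  have h2 : Integrable F := hF.continuous.integrable_of_hasCompactSupport hc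
  have h1' : Integrable (fun x => fderiv ℝ F x e) := h1
  have := integral_mul_fderiv_eq_neg_fderiv_mul_of_integrable (𝕜 := ℝ) (μ := (volume : Measure E))
    (f := fun _ : E => (1 : ℝ)) (g := F) (v := e) (by simp) (by simpa using h1')
    (by simpa using h2) (fun x _ => by fun_prop) (fun x _ => hd x)
  have h3 : ∫ x, fderiv ℝ F x e = 0 := by simpa using this
  exact h3

theorem integral_mu {U : E → ℝ} (hU : Continuous U) (F : E → ℝ) :
    ∫ x, F x ∂(mu U) = ∫ x, F x * Real.exp (-U x) := by
  unfold mu
  rw [integral_withDensity_eq_integral_toReal_smul]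
  · refine integral_congr_ae (Eventually.of_forall fun x => ?_)
    simp only [smul_eq_mul]
    rw [ENNReal.toReal_ofReal (Real.exp_pos _).le]
    ring
  · exact (ENNReal.measurable_ofReal.comp (Real.measurable_exp.comp hU.measurable.neg))
  · exact Eventually.of_forall fun x => ENNReal.ofReal_lt_top

/-- continuous compactly supported functions are integrable for `mu U`. -/
theorem integrable_mu {U F : E → ℝ} (hU : Continuous U) (hF : Continuous F)
    (hc : HasCompactSupport F) : Integrable F (mu U) := by
  unfold mu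
  rw [integrable_withDensity_iff_integrable_smul']
  · have h : (fun x => (ENNReal.ofReal (Real.exp (-U x))).toReal • F x) =
        fun x => Real.exp (-U x) * F x := by
      funext x
      rw [ENNReal.toReal_ofReal (Real.exp_pos _).le, smul_eq_mul]
    rw [h]
    apply Continuous.integrable_of_hasCompactSupport
    · exact (Real.continuous_exp.comp hU.neg).mul hF
    · exact hc.mul_left
  · exact (ENNReal.measurable_ofReal.comp (Real.measurable_exp.comp hU.measurable.neg))
  · exact Eventually.of_forall fun x => ENNReal.ofReal_lt_top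

theorem green (b : OrthonormalBasis ι ℝ E) {U u f : E → ℝ} (hU : ContDiff ℝ 1 U)
    (hu : ContDiff ℝ 2 u) (hf : ContDiff ℝ 1 f) (hc : HasCompactSupport u ∨ HasCompactSupport f) :
    ∫ x, LO b U u x * f x ∂(mu U) = - ∫ x, (∑ i, D (b i) u x * D (b i) f x) ∂(mu U) := by
  have hDu : ∀ i, ContDiff ℝ 1 (D (b i) u) := fun i => contDiff_D hu (by norm_num) (b i)
  have hDDu : ∀ i, Continuous (D (b i) (D (b i) u)) := fun i =>
    (contDiff_D (m := 0) (hDu i) (by norm_num) (b i)).continuous
  have hDU : ∀ i, Continuous (D (b i) U) := fun i =>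
    (contDiff_D (m := 0) hU (by norm_num) (b i)).continuous
  have hDf : ∀ i, Continuous (D (b i) f) := fun i =>
    (contDiff_D (m := 0) hf (by norm_num) (b i)).continuous
  have hE : ContDiff ℝ 1 (fun x => Real.exp (-U x)) := hU.neg.exp
  -- compact supports
  have hcs : ∀ i, HasCompactSupport (fun x => f x * D (b i) u x) := by
    intro i
    rcases hc with h | h
    · exact (hcs_D h (b i)).mul_left
    · exact h.mul_right
  have hcsF : ∀ i, HasCompactSupport (fun x => f x * D (b i) u x * Real.exp (-U x)) := fun i =>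
    (hcs i).mul_right
  have hcF : ∀ i, ContDiff ℝ 1 (fun x => f x * D (b i) u x * Real.exp (-U x)) := fun i =>
    (hf.mul (hDu i)).mul hE
  have hz : ∀ i, ∫ x, D (b i) (fun x => f x * D (b i) u x * Real.exp (-U x)) x = 0 := fun i =>
    ibp (hcF i) (hcsF i) (b i)
  have hptw : ∀ x, (LO b U u x * f x) * Real.exp (-U x) +
      (∑ i, D (b i) u x * D (b i) f x) * Real.exp (-U x) =
      ∑ i, D (b i) (fun x => f x * D (b i) u x * Real.exp (-U x)) x := by
    intro x
    have h1 : ∀ i, D (b i) (fun x => f x * D (b i) u x * Real.exp (-U x)) x =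
        (D (b i) f x * D (b i) u x + f x * D (b i) (D (b i) u) x) * Real.exp (-U x) +
          f x * D (b i) u x * (-(D (b i) U x) * Real.exp (-U x)) := by
      intro i
      have d1 : DifferentiableAt ℝ f x := hf.differentiable (by norm_num) x
      have d2 : DifferentiableAt ℝ (D (b i) u) x := (hDu i).differentiable (by norm_num) x
      have d3 : DifferentiableAt ℝ (fun x => Real.exp (-U x)) x :=
        hE.differentiable (by norm_num) x
      have d12 : DifferentiableAt ℝ (fun y => f y * D (b i) u y) x := d1.mul d2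
      rw [D_mul d12 d3, D_mul d1 d2, D_exp_neg (hU.differentiable (by norm_num) x)]
    rw [Finset.sum_congr rfl fun i _ => h1 i]
    simp only [LO]
    rw [sub_mul, Finset.sum_mul, Finset.sum_mul, sub_mul, Finset.sum_mul, Finset.sum_mul,
      Finset.sum_mul, ← Finset.sum_sub_distrib, ← Finset.sum_add_distrib]
    refine Finset.sum_congr rfl fun i _ => ?_
    ring
  have hsum : ∫ x, ((LO b U u x * f x) * Real.exp (-U x) +
      (∑ i, D (b i) u x * D (b i) f x) * Real.exp (-U x)) = 0 := by
    simp_rw [hptw]
    rw [integral_finsetSum]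
    · exact Finset.sum_eq_zero fun i _ => hz i
    · intro i _
      exact (contDiff_D (m := 0) (hcF i) (by norm_num) (b i)).continuous.integrable_of_hasCompactSupport
        (hcs_D (hcsF i) (b i))
  have hL : Continuous (LO b U u) := by
    unfold LO
    exact (continuous_finsetSum _ fun i _ => hDDu i).sub
      (continuous_finsetSum _ fun i _ => (hDU i).mul (hDu i).continuous)
  have hcLf : HasCompactSupport (fun x => LO b U u x * f x) := by
    rcases hc with h | h
    · apply HasCompactSupport.mul_right
      apply HasCompactSupport.intro h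
      intro x hx
      have hx' : ∀ᶠ y in 𝓝 x, u y = 0 := by
        have := (isClosed_tsupport u).isOpen_compl.mem_nhds hx
        filter_upwards [this] with y hy
        exact image_eq_zero_of_notMem_tsupport hy
      have e1 : ∀ e, ∀ᶠ y in 𝓝 x, D e u y = 0 := by
        intro e
        have h3 := hx'.eventually_nhds
        filter_upwards [h3] with y hy
        have h4 : u =ᶠ[𝓝 y] fun _ => (0 : ℝ) := hy
        simp only [D]
        rw [h4.fderiv_eq]
        simp
      have e2 : ∀ e, D e (D e u) x = 0 := by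
        intro e
        have h4 : D e u =ᶠ[𝓝 x] fun _ => (0 : ℝ) := e1 e
        simp only [D] at h4 ⊢
        rw [h4.fderiv_eq]
        simp
      simp only [LO]
      rw [Finset.sum_eq_zero fun i _ => e2 (b i),
        Finset.sum_eq_zero fun i _ => by rw [(e1 (b i)).self_of_nhds, mul_zero]]
      simp
    · exact h.mul_left
  have hcDD : HasCompactSupport (fun x => ∑ i, D (b i) u x * D (b i) f x) := by
    rcases hc with h | h
    · apply HasCompactSupport.intro h
      intro x hx
      apply Finset.sum_eq_zero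
      intro i _
      have hx' : u =ᶠ[𝓝 x] fun _ => (0 : ℝ) := by
        have := (isClosed_tsupport u).isOpen_compl.mem_nhds hx
        filter_upwards [this] with y hy
        exact image_eq_zero_of_notMem_tsupport hy
      simp only [D]
      rw [hx'.fderiv_eq]
      simp
    · apply HasCompactSupport.intro h
      intro x hx
      apply Finset.sum_eq_zero
      intro i _
      have hx' : f =ᶠ[𝓝 x] fun _ => (0 : ℝ) := by
        have := (isClosed_tsupport f).isOpen_compl.mem_nhds hx
        filter_upwards [this] with y hy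
        exact image_eq_zero_of_notMem_tsupport hy
      simp only [D]
      rw [hx'.fderiv_eq]
      simp
  have i1 : Integrable (fun x => (LO b U u x * f x) * Real.exp (-U x)) :=
    ((hL.mul hf.continuous).mul hE.continuous).integrable_of_hasCompactSupport hcLf.mul_right
  have i2 : Integrable (fun x => (∑ i, D (b i) u x * D (b i) f x) * Real.exp (-U x)) :=
    ((continuous_finsetSum _ fun i _ => (hDu i).continuous.mul (hDf i)).mul
      hE.continuous).integrable_of_hasCompactSupport hcDD.mul_right
  rw [integral_add i1 i2] at hsum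
  rw [integral_mu hU.continuous, integral_mu hU.continuous]
  linarith

/-- Bochner's inequality with a variable lower bound `q` of the Hessian. -/
theorem bochner (b : OrthonormalBasis ι ℝ E) {U u q : E → ℝ} (hU : ContDiff ℝ 2 U)
    (hq : Continuous q) (hqU : ∀ x v : E, q x * ‖v‖ ^ 2 ≤ fderiv ℝ (fderiv ℝ U) x v v)
    (hu : ContDiff ℝ 3 u) (hc : HasCompactSupport u) :
    (∫ x, (∑ i, ‖fderiv ℝ (D (b i) u) x‖ ^ 2) ∂(mu U)) + ∫ x, q x * ‖fderiv ℝ u x‖ ^ 2 ∂(mu U)
      ≤ ∫ x, (LO b U u x) ^ 2 ∂(mu U) := by
  have hU1 : ContDiff ℝ 1 U := hU.of_le (by norm_num)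
  have hu2 : ContDiff ℝ 2 u := hu.of_le (by norm_num)
  have hDu : ∀ i, ContDiff ℝ 2 (D (b i) u) := fun i => contDiff_D hu (by norm_num) (b i)
  have hDDu : ∀ i j, ContDiff ℝ 1 (D (b i) (D (b j) u)) := fun i j =>
    contDiff_D (hDu j) (by norm_num) (b i)
  have hDU : ∀ i, ContDiff ℝ 1 (D (b i) U) := fun i => contDiff_D hU (by norm_num) (b i)
  have hDDU : ∀ i j, Continuous (D (b i) (D (b j) U)) := fun i j =>
    (contDiff_D (m := 0) (hDU j) (by norm_num) (b i)).continuous
  have hL : ContDiff ℝ 1 (LO b U u) := by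
    unfold LO
    exact (ContDiff.sum fun i _ => hDDu i i).sub
      (ContDiff.sum fun i _ => (hDU i).mul ((hDu i).of_le (by norm_num)))
  have hDc : ∀ i, HasCompactSupport (D (b i) u) := fun i => hcs_D hc (b i)
  -- derivative of `LO`
  have hDL : ∀ i x, D (b i) (LO b U u) x =
      LO b U (D (b i) u) x - ∑ j, D (b i) (D (b j) U) x * D (b j) u x := by
    intro i x
    have e1 : LO b U u = fun y => (∑ j, D (b j) (D (b j) u) y) - ∑ j, D (b j) U y * D (b j) u y :=
      rfl
    rw [e1, D_sub]
    · rw [D_sum, D_sum]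
      · simp only [LO]
        rw [sub_sub, ← Finset.sum_add_distrib]
        congr 1
        · refine Finset.sum_congr rfl fun j _ => ?_
          rw [D_comm (hDu j)]
          have : D (b i) (D (b j) u) = D (b j) (D (b i) u) := funext fun y => D_comm hu2 _ _ _
          rw [this]
        · refine Finset.sum_congr rfl fun j _ => ?_
          rw [D_mul ((hDU j).differentiable (by norm_num) x)
            ((hDu j).differentiable (by norm_num) x), D_comm hu2]
          ring
      · intro j _
        exact ((hDU j).differentiable (by norm_num) x).mul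
          ((hDu j).differentiable (by norm_num) x)
      · intro j _
        exact (hDDu j j).differentiable (by norm_num) x
    · exact DifferentiableAt.fun_sum fun j _ => (hDDu j j).differentiable (by norm_num) x
    · exact DifferentiableAt.fun_sum fun j _ => ((hDU j).differentiable (by norm_num) x).mul
        ((hDu j).differentiable (by norm_num) x)
  have g1 := green b hU1 hu2 hL (Or.inl hc)
  have g2 : ∀ i, ∫ x, LO b U (D (b i) u) x * D (b i) u x ∂(mu U) =
      - ∫ x, (∑ j, D (b j) (D (b i) u) x * D (b j) (D (b i) u) x) ∂(mu U) := fun i =>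
    green b hU1 (hDu i) ((hDu i).of_le (by norm_num)) (Or.inl (hDc i))
  have hLD : ∀ i, Continuous (LO b U (D (b i) u)) := by
    intro i
    unfold LO
    exact (continuous_finsetSum _ fun j _ =>
      (contDiff_D (m := 0) (hDDu j i) (by norm_num) (b j)).continuous).sub
      (continuous_finsetSum _ fun j _ => (hDU j).continuous.mul (hDDu j i).continuous)
  have j1 : ∀ i, Integrable (fun x => LO b U (D (b i) u) x * D (b i) u x) (mu U) := fun i =>
    integrable_mu hU.continuous ((hLD i).mul (hDu i).continuous) (hDc i).mul_left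
  have j2 : ∀ i, Integrable (fun x => ‖fderiv ℝ (D (b i) u) x‖ ^ 2) (mu U) := by
    intro i
    apply integrable_mu hU.continuous
    · exact (((hDu i).fderiv_right (m := 0) (by norm_num)).continuous.norm.pow 2)
    · have h := ((hDc i).fderiv (𝕜 := ℝ)).norm
      have h2 : (fun x => ‖fderiv ℝ (D (b i) u) x‖ ^ 2) =
          fun x => ‖fderiv ℝ (D (b i) u) x‖ * ‖fderiv ℝ (D (b i) u) x‖ := by
        funext x; ring
      rw [h2]
      exact h.mul_right
  have j3 : Integrable (fun x => ∑ i, ∑ j, D (b i) (D (b j) U) x * D (b i) u x * D (b j) u x)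
      (mu U) := by
    apply integrable_finsetSum
    intro i _
    apply integrable_finsetSum
    intro j _
    exact integrable_mu hU.continuous
      (((hDDU i j).mul (hDu i).continuous).mul (hDu j).continuous) (hDc j).mul_left
  have j4 : Integrable (fun x => q x * ‖fderiv ℝ u x‖ ^ 2) (mu U) := by
    apply integrable_mu hU.continuous
    · exact hq.mul ((hu.fderiv_right (m := 0) (by norm_num)).continuous.norm.pow 2)
    · have h := (hc.fderiv (𝕜 := ℝ)).norm
      have h2 : (fun x => q x * ‖fderiv ℝ u x‖ ^ 2) =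
          fun x => (q x * ‖fderiv ℝ u x‖) * ‖fderiv ℝ u x‖ := by
        funext x; ring
      rw [h2]
      exact h.mul_left
  have k1 : ∫ x, (LO b U u x) ^ 2 ∂(mu U) =
      (∫ x, (∑ i, ‖fderiv ℝ (D (b i) u) x‖ ^ 2) ∂(mu U)) +
      ∫ x, (∑ i, ∑ j, D (b i) (D (b j) U) x * D (b i) u x * D (b j) u x) ∂(mu U) := by
    have e1 : ∫ x, (LO b U u x) ^ 2 ∂(mu U) = ∫ x, LO b U u x * LO b U u x ∂(mu U) := by
      refine integral_congr_ae (Eventually.of_forall fun x => ?_)
      simp only
      ring
    have e2 : ∫ x, (∑ i, D (b i) u x * D (b i) (LO b U u) x) ∂(mu U) =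
        ∫ x, ((∑ i, LO b U (D (b i) u) x * D (b i) u x) -
          ∑ i, ∑ j, D (b i) (D (b j) U) x * D (b i) u x * D (b j) u x) ∂(mu U) := by
      refine integral_congr_ae (Eventually.of_forall fun x => ?_)
      simp only
      rw [← Finset.sum_sub_distrib]
      refine Finset.sum_congr rfl fun i _ => ?_
      rw [hDL, mul_sub, Finset.mul_sum, mul_comm]
      congr 1
      refine Finset.sum_congr rfl fun j _ => ?_
      ring
    have e3 : ∫ x, (∑ i, LO b U (D (b i) u) x * D (b i) u x) ∂(mu U) =
        - ∫ x, (∑ i, ‖fderiv ℝ (D (b i) u) x‖ ^ 2) ∂(mu U) := by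
      rw [integral_finsetSum _ fun i _ => j1 i, integral_finsetSum _ fun i _ => j2 i,
        ← Finset.sum_neg_distrib]
      refine Finset.sum_congr rfl fun i _ => ?_
      rw [g2 i]
      congr 1
      refine integral_congr_ae (Eventually.of_forall fun x => ?_)
      simp only
      rw [nsq_clm b]
      refine Finset.sum_congr rfl fun j _ => ?_
      simp only [D]
      ring
    rw [e1, g1, e2, integral_sub (integrable_finsetSum _ fun i _ => j1 i) j3, e3]
    ring
  rw [k1]
  have k2 : ∫ x, q x * ‖fderiv ℝ u x‖ ^ 2 ∂(mu U) ≤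
      ∫ x, (∑ i, ∑ j, D (b i) (D (b j) U) x * D (b i) u x * D (b j) u x) ∂(mu U) := by
    apply integral_mono j4 j3
    intro x
    have := expand_b b (fderiv ℝ u x) (fderiv ℝ (fderiv ℝ U) x) (hqU x)
    simp only
    refine this.trans (le_of_eq ?_)
    refine Finset.sum_congr rfl fun i _ => Finset.sum_congr rfl fun j _ => ?_
    rw [D_D hU]
    rfl
  linarith

end Pool.Agent.H84.Sym
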