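import Pool.Agent.H91.Sym.A2

/-! Module P1 of project SYM2: the identity of Bochner. -/

set_option autoImplicit false

open MeasureTheory Set Filter Topology
open scoped ContDiff Pointwise

namespace Pool.Agent.H84.Sym

open Pool.Agent.H84

universe v

variable {E : Type v} [NormedAddCommGroup E] [InnerProductSpace ℝ E]
    [FiniteDimensional ℝ E] [MeasurableSpace E] [BorelSpace E]
variable {ι : Type*} [Fintype ι]

theorem bochner_full (b : OrthonormalBasis ι ℝ E) {U u : E → ℝ} (hU : ContDiff ℝ 2 U)
    (hu : ContDiff ℝ 3 u) (hc : HasCompactSupport u) :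
    (∫ x, (∑ i, ‖fderiv ℝ (D (b i) u) x‖ ^ 2) ∂(mu U)) +
      ∫ x, (∑ i, ∑ j, D (b i) (D (b j) U) x * D (b i) u x * D (b j) u x) ∂(mu U)
      = ∫ x, (LO b U u x) ^ 2 ∂(mu U) := by
  have hU1 : ContDiff ℝ 1 U := hU.of_le (by norm_num)
  have hu2 : ContDiff ℝ 2 u := hu.of_le (by norm_num)
  have hDu : ∀ i, ContDiff ℝ 2 (D (b i) u) := fun i => contDiff_D hu (by norm_num) (b i)
  have hDDu : ∀ i j, ContDiff ℝ 1 (D (b i) (D (b j) u)) := fun i j =>
    contDiff_D (hDu j) (by norm_num) (b i)
  have hDU : ∀ i, ContDiff ℝ 1 (D (b i) U) := fun i => contDiff_D hU (by norm_num) (b i)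
  have hDDU : ∀ i j, Continuous (D (b i) (D (b j) U)) := fun i j =>
    (contDiff_D (m := 0) (hDU j) (by norm_num) (b i)).continuous
  have hL : ContDiff ℝ 1 (LO b U u) := by
    unfold LO
    exact (ContDiff.sum fun i _ => hDDu i i).sub
      (ContDiff.sum fun i _ => (hDU i).mul ((hDu i).of_le (by norm_num)))
  have hDc : ∀ i, HasCompactSupport (D (b i) u) := fun i => hcs_D hc (b i)
  -- derivative of `LO`
  have hDL : ∀ i x, D (b i) (LO b U u) x =
      LO b U (D (b i) u) x - ∑ j, D (b i) (D (b j) U) x * D (b j) u x := by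
    intro i x
    have e1 : LO b U u = fun y => (∑ j, D (b j) (D (b j) u) y) - ∑ j, D (b j) U y * D (b j) u y :=
      rfl
    rw [e1, D_sub]
    · rw [D_sum, D_sum]
      · simp only [LO]
        rw [sub_sub, ← Finset.sum_add_distrib]
        congr 1
        · refine Finset.sum_congr rfl fun j _ => ?_
          rw [D_comm (hDu j)]
          have : D (b i) (D (b j) u) = D (b j) (D (b i) u) := funext fun y => D_comm hu2 _ _ _
          rw [this]
        · refine Finset.sum_congr rfl fun j _ => ?_
          rw [D_mul ((hDU j).differentiable (by norm_num) x)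
            ((hDu j).differentiable (by norm_num) x), D_comm hu2]
          ring
      · intro j _
        exact ((hDU j).differentiable (by norm_num) x).mul
          ((hDu j).differentiable (by norm_num) x)
      · intro j _
        exact (hDDu j j).differentiable (by norm_num) x
    · exact DifferentiableAt.fun_sum fun j _ => (hDDu j j).differentiable (by norm_num) x
    · exact DifferentiableAt.fun_sum fun j _ => ((hDU j).differentiable (by norm_num) x).mul
        ((hDu j).differentiable (by norm_num) x)
  have g1 := green b hU1 hu2 hL (Or.inl hc)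
  have g2 : ∀ i, ∫ x, LO b U (D (b i) u) x * D (b i) u x ∂(mu U) =
      - ∫ x, (∑ j, D (b j) (D (b i) u) x * D (b j) (D (b i) u) x) ∂(mu U) := fun i =>
    green b hU1 (hDu i) ((hDu i).of_le (by norm_num)) (Or.inl (hDc i))
  have hLD : ∀ i, Continuous (LO b U (D (b i) u)) := by
    intro i
    unfold LO
    exact (continuous_finsetSum _ fun j _ =>
      (contDiff_D (m := 0) (hDDu j i) (by norm_num) (b j)).continuous).sub
      (continuous_finsetSum _ fun j _ => (hDU j).continuous.mul (hDDu j i).continuous)
  have j1 : ∀ i, Integrable (fun x => LO b U (D (b i) u) x * D (b i) u x) (mu U) := fun i =>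
    integrable_mu hU.continuous ((hLD i).mul (hDu i).continuous) (hDc i).mul_left
  have j2 : ∀ i, Integrable (fun x => ‖fderiv ℝ (D (b i) u) x‖ ^ 2) (mu U) := by
    intro i
    apply integrable_mu hU.continuous
    · exact (((hDu i).fderiv_right (m := 0) (by norm_num)).continuous.norm.pow 2)
    · have h := ((hDc i).fderiv (𝕜 := ℝ)).norm
      have h2 : (fun x => ‖fderiv ℝ (D (b i) u) x‖ ^ 2) =
          fun x => ‖fderiv ℝ (D (b i) u) x‖ * ‖fderiv ℝ (D (b i) u) x‖ := by
        funext x; ring
      rw [h2]
      exact h.mul_right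
  have j3 : Integrable (fun x => ∑ i, ∑ j, D (b i) (D (b j) U) x * D (b i) u x * D (b j) u x)
      (mu U) := by
    apply integrable_finsetSum
    intro i _
    apply integrable_finsetSum
    intro j _
    exact integrable_mu hU.continuous
      (((hDDU i j).mul (hDu i).continuous).mul (hDu j).continuous) (hDc j).mul_left
  have k1 : ∫ x, (LO b U u x) ^ 2 ∂(mu U) =
      (∫ x, (∑ i, ‖fderiv ℝ (D (b i) u) x‖ ^ 2) ∂(mu U)) +
      ∫ x, (∑ i, ∑ j, D (b i) (D (b j) U) x * D (b i) u x * D (b j) u x) ∂(mu U) := by
    have e1 : ∫ x, (LO b U u x) ^ 2 ∂(mu U) = ∫ x, LO b U u x * LO b U u x ∂(mu U) := by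
      refine integral_congr_ae (Eventually.of_forall fun x => ?_)
      simp only
      ring
    have e2 : ∫ x, (∑ i, D (b i) u x * D (b i) (LO b U u) x) ∂(mu U) =
        ∫ x, ((∑ i, LO b U (D (b i) u) x * D (b i) u x) -
          ∑ i, ∑ j, D (b i) (D (b j) U) x * D (b i) u x * D (b j) u x) ∂(mu U) := by
      refine integral_congr_ae (Eventually.of_forall fun x => ?_)
      simp only
      rw [← Finset.sum_sub_distrib]
      refine Finset.sum_congr rfl fun i _ => ?_
      rw [hDL, mul_sub, Finset.mul_sum, mul_comm]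
      congr 1
      refine Finset.sum_congr rfl fun j _ => ?_
      ring
    have e3 : ∫ x, (∑ i, LO b U (D (b i) u) x * D (b i) u x) ∂(mu U) =
        - ∫ x, (∑ i, ‖fderiv ℝ (D (b i) u) x‖ ^ 2) ∂(mu U) := by
      rw [integral_finsetSum _ fun i _ => j1 i, integral_finsetSum _ fun i _ => j2 i,
        ← Finset.sum_neg_distrib]
      refine Finset.sum_congr rfl fun i _ => ?_
      rw [g2 i]
      congr 1
      refine integral_congr_ae (Eventually.of_forall fun x => ?_)
      simp only
      rw [nsq_clm b]
      refine Finset.sum_congr rfl fun j _ => ?_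
      simp only [D]
      ring
    rw [e1, g1, e2, integral_sub (integrable_finsetSum _ fun i _ => j1 i) j3, e3]
    ring
  exact k1.symm

end Pool.Agent.H84.Sym
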