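import Pool.Agent.H84.Sym.Defs2
import Pool.Agent.H69.Sym.B3
import Pool.Agent.H29.Sym.BC

/-! Module P2 of project SYM2: functions of exponential growth, density of the range. -/

set_option autoImplicit false

open MeasureTheory Set Filter Topology
open scoped ContDiff Pointwise

namespace Pool.Agent.H84.Sym

open Pool.Agent.H84

universe v

variable {E : Type v} [NormedAddCommGroup E] [InnerProductSpace ℝ E]
    [FiniteDimensional ℝ E] [MeasurableSpace E] [BorelSpace E]
variable {ι : Type*} [Fintype ι]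

namespace P2x

open C29

/-- Continuous functions of exponential growth. -/
def GC {H : Type*} [NormedAddCommGroup H] (F : H → ℝ) : Prop := Continuous F ∧ Gr F

section Basic

variable {H : Type*} [NormedAddCommGroup H]

theorem Gr.norm {F : H → ℝ} (h : Gr F) :
    ∃ A B : ℝ, 0 ≤ A ∧ 0 ≤ B ∧ ∀ x, |F x| ≤ A * Real.exp (B * ‖x‖) := by
  obtain ⟨A, B, hAB⟩ := h
  have hA : 0 ≤ A := by
    have := (abs_nonneg _).trans (hAB 0)
    simpa using this
  refine ⟨A, |B|, hA, abs_nonneg B, fun x => (hAB x).trans ?_⟩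
  apply mul_le_mul_of_nonneg_left _ hA
  exact Real.exp_le_exp.2 (mul_le_mul_of_nonneg_right (le_abs_self B) (norm_nonneg x))

theorem Gr.of_le {F G : H → ℝ} (h : Gr G) (hFG : ∀ x, |F x| ≤ |G x|) : Gr F := by
  obtain ⟨A, B, hAB⟩ := h
  exact ⟨A, B, fun x => (hFG x).trans (hAB x)⟩

theorem Gr.add {F G : H → ℝ} (hF : Gr F) (hG : Gr G) : Gr (fun x => F x + G x) := by
  obtain ⟨A, B, hA, hB, h⟩ := Gr.norm hF
  obtain ⟨A', B', hA', hB', h'⟩ := Gr.norm hG
  refine ⟨A + A', B + B', fun x => (abs_add_le _ _).trans ?_⟩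
  have e1 : Real.exp (B * ‖x‖) ≤ Real.exp ((B + B') * ‖x‖) :=
    Real.exp_le_exp.2 (mul_le_mul_of_nonneg_right (by linarith) (norm_nonneg x))
  have e2 : Real.exp (B' * ‖x‖) ≤ Real.exp ((B + B') * ‖x‖) :=
    Real.exp_le_exp.2 (mul_le_mul_of_nonneg_right (by linarith) (norm_nonneg x))
  rw [add_mul A A']
  exact add_le_add ((h x).trans (mul_le_mul_of_nonneg_left e1 hA))
    ((h' x).trans (mul_le_mul_of_nonneg_left e2 hA'))

theorem Gr.mul {F G : H → ℝ} (hF : Gr F) (hG : Gr G) : Gr (fun x => F x * G x) := by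
  obtain ⟨A, B, hA, hB, h⟩ := Gr.norm hF
  obtain ⟨A', B', hA', hB', h'⟩ := Gr.norm hG
  refine ⟨A * A', B + B', fun x => ?_⟩
  rw [abs_mul]
  refine (mul_le_mul (h x) (h' x) (abs_nonneg _) (by positivity)).trans (le_of_eq ?_)
  rw [add_mul, Real.exp_add]
  ring

theorem Gr.of_bdd {F : H → ℝ} {A : ℝ} (h : ∀ x, |F x| ≤ A) : Gr F :=
  ⟨A, 0, fun x => by simpa using h x⟩

theorem Gr.nrm : Gr (fun x : H => ‖x‖) := by
  refine ⟨1, 1, fun x => ?_⟩
  rw [abs_of_nonneg (norm_nonneg x), one_mul, one_mul]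
  have := Real.add_one_le_exp ‖x‖
  linarith

theorem GC.const (c : ℝ) : GC (fun _ : H => c) := ⟨continuous_const, Gr.of_bdd fun _ => le_rfl⟩

theorem GC.add {F G : H → ℝ} (hF : GC F) (hG : GC G) : GC (fun x => F x + G x) :=
  ⟨hF.1.add hG.1, Gr.add hF.2 hG.2⟩

theorem GC.mul {F G : H → ℝ} (hF : GC F) (hG : GC G) : GC (fun x => F x * G x) :=
  ⟨hF.1.mul hG.1, Gr.mul hF.2 hG.2⟩

theorem GC.neg {F : H → ℝ} (hF : GC F) : GC (fun x => -F x) :=
  ⟨hF.1.neg, Gr.of_le hF.2 fun x => by rw [abs_neg]⟩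

theorem GC.sub {F G : H → ℝ} (hF : GC F) (hG : GC G) : GC (fun x => F x - G x) := by
  simpa only [sub_eq_add_neg] using hF.add hG.neg

theorem GC.sq {F : H → ℝ} (hF : GC F) : GC (fun x => F x ^ 2) := by
  have h := GC.mul hF hF
  simp only [← pow_two] at h
  exact h

theorem GC.abs {F : H → ℝ} (hF : GC F) : GC (fun x => |F x|) :=
  ⟨hF.1.abs, Gr.of_le hF.2 fun x => by rw [abs_abs]⟩

theorem GC.sum {κ : Type*} {s : Finset κ} {F : κ → H → ℝ} (hF : ∀ i, GC (F i)) :
    GC (fun x => ∑ i ∈ s, F i x) := by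
  classical
  induction s using Finset.induction_on with
  | empty => simpa using GC.const (H := H) 0
  | insert a s ha ih =>
    have h := (hF a).add ih
    simpa only [Finset.sum_insert ha] using h

theorem GC.of_BC {H : Type*} [NormedAddCommGroup H] [InnerProductSpace ℝ H] {F : H → ℝ}
    (hF : BC F) : GC F := by
  obtain ⟨h, A, hA⟩ := hF
  exact ⟨h, Gr.of_bdd hA⟩

end Basic

theorem GC.integrable {F U : E → ℝ} {t C : ℝ} (hF : GC F) (hU : Pot U t C) :
    Integrable F (mu U) := by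
  obtain ⟨h, A, B, hAB⟩ := hF
  exact integrable_exp_growth hU h hAB

end P2x

open P2x C29

theorem dense_range_gr (b : OrthonormalBasis ι ℝ E) {U h : E → ℝ} {t C : ℝ} (hU : Pot U t C)
    (hh : ContDiff ℝ 1 h) (hg : Gr h) {c : ℝ}
    (hm : c * (mu U).real univ = ∫ x, h x ∂(mu U)) {ε : ℝ} (hε : 0 < ε) :
    ∃ u : E → ℝ, Tst u ∧ ∫ x, (LO b U u x + (h x - c)) ^ 2 ∂(mu U) ≤ ε := by
  have hfin := isFinite_mu hU
  have hU1 : ContDiff ℝ 1 U := hU.smooth.of_le (by norm_num)
  have hZ := mu_univ_pos hU.smooth.continuous hfin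
  set Z := (mu U).real univ with hZd
  obtain ⟨A, χ, hχ⟩ := exists_cutoff b
  have hGh : GC h := ⟨hh.continuous, hg⟩
  -- the cut-off functions tend to one
  have hχ1 : ∀ x : E, ∀ᶠ k : ℕ in atTop, χ k x = 1 := by
    intro x
    obtain ⟨K, hK⟩ := exists_nat_ge (Real.log (1 + ‖x‖ ^ 2))
    filter_upwards [eventually_ge_atTop K] with k hk
    apply (hχ k).2.2.1
    have : (K : ℝ) ≤ k := by exact_mod_cast hk
    linarith
  have hcont : ∀ k, Continuous (χ k) := fun k => (hχ k).1.1.continuous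
  have hb1 : ∀ k x, |h x - h x * χ k x| ≤ |h x| := by
    intro k x
    have h1 := (hχ k).2.1 x
    have : h x - h x * χ k x = h x * (1 - χ k x) := by ring
    rw [this, abs_mul]
    have h2 : |1 - χ k x| ≤ 1 := by
      rw [abs_le]
      constructor <;> linarith [h1.1, h1.2]
    exact mul_le_of_le_one_right (abs_nonneg _) h2
  have t1 : Tendsto (fun k => ∫ x, (h x - h x * χ k x) ^ 2 ∂(mu U)) atTop (𝓝 0) := by
    have := tendsto_integral_of_dominated_convergence (μ := mu U)
      (F := fun k x => (h x - h x * χ k x) ^ 2) (f := fun _ => (0 : ℝ)) (fun x => h x ^ 2)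
      (fun k => ((hh.continuous.sub (hh.continuous.mul (hcont k))).pow 2).aestronglyMeasurable)
      (hGh.sq.integrable hU)
      (fun k => Eventually.of_forall fun x => by
        rw [Real.norm_eq_abs, abs_of_nonneg (sq_nonneg _)]
        exact sq_le_sq.2 (hb1 k x))
      (Eventually.of_forall fun x => by
        apply tendsto_const_nhds.congr'
        filter_upwards [hχ1 x] with k hk
        rw [hk]
        ring)
    simpa using this
  have t2 : Tendsto (fun k => ∫ x, (h x - h x * χ k x) ∂(mu U)) atTop (𝓝 0) := by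
    have := tendsto_integral_of_dominated_convergence (μ := mu U)
      (F := fun k x => (h x - h x * χ k x)) (f := fun _ => (0 : ℝ)) (fun x => |h x|)
      (fun k => (hh.continuous.sub (hh.continuous.mul (hcont k))).aestronglyMeasurable)
      (hGh.abs.integrable hU)
      (fun k => Eventually.of_forall fun x => by
        rw [Real.norm_eq_abs]
        exact hb1 k x)
      (Eventually.of_forall fun x => by
        apply tendsto_const_nhds.congr'
        filter_upwards [hχ1 x] with k hk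
        rw [hk]
        ring)
    simpa using this
  have t3 : Tendsto (fun k => 4 * (∫ x, (h x - h x * χ k x) ^ 2 ∂(mu U)) +
      4 * ((∫ x, (h x - h x * χ k x) ∂(mu U)) / Z) ^ 2 * Z) atTop (𝓝 0) := by
    have := (t1.const_mul 4).add ((((t2.div_const Z).pow 2).const_mul 4).mul_const Z)
    simpa using this
  obtain ⟨k, hk⟩ := ((tendsto_order.1 t3).2 (ε / 2) (by positivity)).exists
  set hk' : E → ℝ := fun x => h x * χ k x with hkd
  have hχs : ContDiff ℝ 1 (χ k) := (hχ k).1.1.of_le (by exact_mod_cast (le_top : (1 : ℕ∞) ≤ ⊤))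
  have hk1 : ContDiff ℝ 1 hk' := hh.mul hχs
  have hkc : HasCompactSupport hk' := (hχ k).1.2.mul_left
  set ck : ℝ := (∫ x, hk' x ∂(mu U)) / Z with hck
  have hmk : ck * Z = ∫ x, hk' x ∂(mu U) := by
    rw [hck]
    field_simp
  obtain ⟨u, hu, hu'⟩ := dense_range b hU hk1 hkc hmk (ε := ε / 4) (by positivity)
  refine ⟨u, hu, ?_⟩
  have hkBC : BC hk' := BC.of_compact hk1.continuous hkc
  have hL := LO_BC b hU1 hu
  have i1 : Integrable (fun x => (LO b U u x + (hk' x - ck)) ^ 2) (mu U) :=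
    ((hL.add (hkBC.sub (BC.const ck))).sq).integrable _
  have hGd : GC (fun x => h x - hk' x) := hGh.sub (GC.of_BC hkBC)
  have i2 : Integrable (fun x => (h x - hk' x) ^ 2) (mu U) := hGd.sq.integrable hU
  have hcc : (c - ck) = (∫ x, (h x - hk' x) ∂(mu U)) / Z := by
    rw [integral_sub (hGh.integrable hU) (hkBC.integrable _), ← hm, ← hmk]
    field_simp
  have i12 : Integrable (fun x => 2 * (LO b U u x + (hk' x - ck)) ^ 2 + 4 * (h x - hk' x) ^ 2)
      (mu U) := (i1.const_mul 2).add (i2.const_mul 4)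
  have i123 : Integrable (fun x => 2 * (LO b U u x + (hk' x - ck)) ^ 2 + 4 * (h x - hk' x) ^ 2 +
      4 * (c - ck) ^ 2) (mu U) := i12.add (integrable_const _)
  calc ∫ x, (LO b U u x + (h x - c)) ^ 2 ∂(mu U)
      ≤ ∫ x, (2 * (LO b U u x + (hk' x - ck)) ^ 2 + 4 * (h x - hk' x) ^ 2 +
          4 * (c - ck) ^ 2) ∂(mu U) := by
        apply integral_mono_of_nonneg (Eventually.of_forall fun x => sq_nonneg _) i123
        refine Eventually.of_forall fun x => ?_
        simp only
        nlinarith [sq_nonneg ((LO b U u x + (hk' x - ck)) - ((h x - hk' x) - (c - ck))),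
          sq_nonneg ((h x - hk' x) + (c - ck))]
    _ = 2 * (∫ x, (LO b U u x + (hk' x - ck)) ^ 2 ∂(mu U)) +
          4 * (∫ x, (h x - hk' x) ^ 2 ∂(mu U)) + 4 * (c - ck) ^ 2 * Z := by
        rw [integral_add i12 (integrable_const _), integral_add (i1.const_mul 2) (i2.const_mul 4),
          integral_const_mul, integral_const_mul, integral_const]
        simp only [smul_eq_mul]
        rw [hZd]
        ring
    _ ≤ ε := by
        have e1 : 4 * (∫ x, (h x - hk' x) ^ 2 ∂(mu U)) + 4 * (c - ck) ^ 2 * Z < ε / 2 := by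
          rw [hcc]
          exact hk
        linarith

end Pool.Agent.H84.Sym
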