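import Pool.Agent.H91.Sym.P1
import Pool.Agent.H91.Sym.P2

/-! Module P3a of project SYM2: Brascamp-Lieb with a joint Hessian. -/

set_option autoImplicit false

open MeasureTheory Set Filter Topology
open scoped ContDiff Pointwise

namespace Pool.Agent.H84.Sym

open Pool.Agent.H84

universe v

variable {E : Type v} [NormedAddCommGroup E] [InnerProductSpace ℝ E]
    [FiniteDimensional ℝ E] [MeasurableSpace E] [BorelSpace E]
variable {ι : Type*} [Fintype ι]

namespace P3x

open C29 P2x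

omit [FiniteDimensional ℝ E] [MeasurableSpace E] [BorelSpace E] in
/-- the joint Hessian inequality on the gradient of `u`, in coordinates -/
theorem hj_coord (b : OrthonormalBasis ι ℝ E) {V k q u : E → ℝ} (hV : ContDiff ℝ 2 V) {s : ℝ}
    (hj : ∀ x η : E, s ≤ q x - 2 * fderiv ℝ k x η + fderiv ℝ (fderiv ℝ V) x η η) (x : E) :
    s ≤ q x - 2 * (∑ i, D (b i) u x * D (b i) k x) +
      ∑ i, ∑ j, D (b i) (D (b j) V) x * D (b i) u x * D (b j) u x := by
  have h := hj x (∑ i, D (b i) u x • b i)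
  have e1 : fderiv ℝ k x (∑ i, D (b i) u x • b i) = ∑ i, D (b i) u x * D (b i) k x := by
    rw [map_sum]
    refine Finset.sum_congr rfl fun i _ => ?_
    rw [map_smul]
    rfl
  have e2 : fderiv ℝ (fderiv ℝ V) x (∑ i, D (b i) u x • b i) (∑ i, D (b i) u x • b i) =
      ∑ i, ∑ j, D (b i) (D (b j) V) x * D (b i) u x * D (b j) u x := by
    simp only [map_sum, map_smul, ContinuousLinearMap.sum_apply, ContinuousLinearMap.smul_apply,
      smul_eq_mul, Finset.mul_sum]
    rw [Finset.sum_comm]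
    refine Finset.sum_congr rfl fun i _ => Finset.sum_congr rfl fun j _ => ?_
    rw [D_D hV]
    ring
  rw [e1, e2] at h
  exact h

/-- The basic inequality: `H` is the integral of the squares of the second derivatives. -/
theorem sec_core (b : OrthonormalBasis ι ℝ E) {V k q u : E → ℝ} {t C s : ℝ} (hV : Pot V t C)
    [IsProbabilityMeasure (mu V)]
    (hk : ContDiff ℝ 1 k) (hkg : Gr k) (hq : Continuous q) (hqg : Gr q)
    (hj : ∀ x η : E, s ≤ q x - 2 * fderiv ℝ k x η + fderiv ℝ (fderiv ℝ V) x η η)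
    (hu : Tst u) :
    s + (∫ x, (∑ i, ‖fderiv ℝ (D (b i) u) x‖ ^ 2) ∂(mu V)) +
      ((∫ x, k x ^ 2 ∂(mu V)) - (∫ x, k x ∂(mu V)) ^ 2) ≤ (∫ x, q x ∂(mu V)) +
        ∫ x, (LO b V u x + (k x - ∫ y, k y ∂(mu V))) ^ 2 ∂(mu V) := by
  have hV1 : ContDiff ℝ 1 V := hV.smooth.of_le (by norm_num)
  have hu2 : ContDiff ℝ 2 u := by simpa using contDiff_infty.mp hu.1 2
  have hu3 : ContDiff ℝ 3 u := by simpa using contDiff_infty.mp hu.1 3
  have hu1 : ContDiff ℝ 1 u := hu2.of_le (by norm_num)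
  set c := ∫ y, k y ∂(mu V) with hc
  have hGk : GC k := ⟨hk.continuous, hkg⟩
  have hGq : GC q := ⟨hq, hqg⟩
  have hL := LO_BC b hV1 hu
  have hGL : GC (LO b V u) := GC.of_BC hL
  have hGkc : GC (fun x => k x - c) := hGk.sub (GC.const c)
  have hD1 : ∀ i, BC (D (b i) u) := fun i => D_BC hu1 hu.2 (b i)
  have hDD : BC (fun x => ∑ i, D (b i) u x * D (b i) k x) := by
    refine BC.sum fun i => BC.of_compact ((D_cont hu1 _).mul (D_cont hk _)) ?_
    exact (D_supp hu.2 _).mul_right
  have hDDU : ∀ i j, Continuous (D (b i) (D (b j) V)) := fun i j =>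
    (contDiff_D (m := 0) (contDiff_D hV.smooth (m := 1) (by norm_num) (b j)) (by norm_num)
      (b i)).continuous
  have hVV : BC (fun x => ∑ i, ∑ j, D (b i) (D (b j) V) x * D (b i) u x * D (b j) u x) := by
    refine BC.sum fun i => BC.sum fun j => BC.of_compact
      (((hDDU i j).mul (D_cont hu1 _)).mul (D_cont hu1 _)) ?_
    exact (D_supp hu.2 _).mul_left
  have i1 := hGq.integrable hV
  have i2 := hDD.integrable (mu V)
  have i3 := hVV.integrable (mu V)
  -- integrate the joint Hessian inequality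
  have h1 : s ≤ (∫ x, q x ∂(mu V)) - 2 * (∫ x, (∑ i, D (b i) u x * D (b i) k x) ∂(mu V)) +
      ∫ x, (∑ i, ∑ j, D (b i) (D (b j) V) x * D (b i) u x * D (b j) u x) ∂(mu V) := by
    have h2 : ∫ _x, s ∂(mu V) ≤ ∫ x, (q x - 2 * (∑ i, D (b i) u x * D (b i) k x) +
        ∑ i, ∑ j, D (b i) (D (b j) V) x * D (b i) u x * D (b j) u x) ∂(mu V) :=
      integral_mono (integrable_const _) ((i1.sub (i2.const_mul 2)).add i3)
        fun x => hj_coord b hV.smooth hj x
    rw [integral_const, probReal_univ, one_smul] at h2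
    refine h2.trans (le_of_eq ?_)
    have i12 : Integrable (fun x => q x - 2 * (∑ i, D (b i) u x * D (b i) k x)) (mu V) :=
      i1.sub (i2.const_mul 2)
    rw [integral_add i12 i3, integral_sub i1 (i2.const_mul 2), integral_const_mul]
  have h2 := green_sub b hV1 hu hk c
  have h3 := bochner_full b hV.smooth hu3 hu.2
  have i4 : Integrable (fun x => LO b V u x ^ 2) (mu V) := hL.sq.integrable _
  have i5 : Integrable (fun x => LO b V u x * (k x - c)) (mu V) := (hGL.mul hGkc).integrable hV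
  have i6 : Integrable (fun x => (k x - c) ^ 2) (mu V) := hGkc.sq.integrable hV
  have h4 : ∫ x, (LO b V u x + (k x - c)) ^ 2 ∂(mu V) = (∫ x, LO b V u x ^ 2 ∂(mu V)) +
      2 * (∫ x, LO b V u x * (k x - c) ∂(mu V)) + ∫ x, (k x - c) ^ 2 ∂(mu V) := by
    have i45 : Integrable (fun x => LO b V u x ^ 2 + 2 * (LO b V u x * (k x - c))) (mu V) :=
      i4.add (i5.const_mul 2)
    rw [← integral_const_mul, ← integral_add i4 (i5.const_mul 2), ← integral_add i45 i6]
    refine integral_congr_ae (Eventually.of_forall fun x => ?_)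
    simp only
    ring
  have h5 : ∫ x, (k x - c) ^ 2 ∂(mu V) = (∫ x, k x ^ 2 ∂(mu V)) - c ^ 2 := by
    have j1 : Integrable (fun x => k x ^ 2) (mu V) := hGk.sq.integrable hV
    have j2 : Integrable k (mu V) := hGk.integrable hV
    have j12 : Integrable (fun x => k x ^ 2 - 2 * c * k x) (mu V) := j1.sub (j2.const_mul (2 * c))
    have : ∫ x, (k x - c) ^ 2 ∂(mu V) = ∫ x, ((k x ^ 2 - 2 * c * k x) + c ^ 2) ∂(mu V) := by
      refine integral_congr_ae (Eventually.of_forall fun x => ?_)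
      simp only
      ring
    rw [this, integral_add j12 (integrable_const _), integral_sub j1 (j2.const_mul _),
      integral_const_mul, integral_const, probReal_univ, one_smul, ← hc]
    ring
  rw [h4, h2]
  rw [h2] at h4
  linarith

end P3x

open P3x in
theorem sec_bl {V k q : E → ℝ} {t C s : ℝ} (hV : Pot V t C) [IsProbabilityMeasure (mu V)]
    (hk : ContDiff ℝ 1 k) (hkg : Gr k) (hq : Continuous q) (hqg : Gr q)
    (hj : ∀ x η : E, s ≤ q x - 2 * fderiv ℝ k x η + fderiv ℝ (fderiv ℝ V) x η η) :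
    s + ((∫ x, k x ^ 2 ∂(mu V)) - (∫ x, k x ∂(mu V)) ^ 2) ≤ ∫ x, q x ∂(mu V) := by
  refine le_of_forall_pos_le_add fun ε hε => ?_
  set b := stdOrthonormalBasis ℝ E
  obtain ⟨u, hu, hu'⟩ := dense_range_gr b hV hk hkg
    (c := ∫ y, k y ∂(mu V)) (by rw [probReal_univ, mul_one]) hε
  have h := sec_core b hV hk hkg hq hqg hj hu
  have h0 : 0 ≤ ∫ x, (∑ i, ‖fderiv ℝ (D (b i) u) x‖ ^ 2) ∂(mu V) :=
    integral_nonneg fun x => Finset.sum_nonneg fun i _ => sq_nonneg _
  linarith

end Pool.Agent.H84.Sym
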